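import Mathlib
import Pool.Agent.W192.HK.Parts

/-!
# The functional equation of the theta series of a Hecke character
-/

set_option autoImplicit false

open Complex Filter Topology Set

namespace Pool.Agent.W391.HK

open Pool.Agent.W192.HK
open Pool.Agent.W192.CM (ez nu)

variable {R : Subring ℂ}

open Classical in
/-- splitting a sum over `b` into residue classes modulo `q` -/
theorem tsum_split (q b : Ideal R) (T : Finset R) (hT : ∀ x ∈ T, x ∈ b)
    (huni : ∀ α : R, ∃! x, x ∈ T ∧ α - x ∈ q) (hcop : IsCoprime q b)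
    (f : R → ℂ) (hf : Summable f) (hf0 : ∀ α, α ∉ b → f α = 0) :
    ∑' α, f α = ∑ r ∈ T, ∑' β : R, (if β ∈ q * b then f (r + β) else 0) := by
  have hqb : q ⊓ b = q * b := (Ideal.mul_eq_inf_of_isCoprime hcop).symm
  have h1 : ∀ α, f α = ∑ r ∈ T, (if α - r ∈ q * b then f α else 0) := by
    intro α
    by_cases hα : α ∈ b
    · obtain ⟨x, ⟨hxT, hxq⟩, hx⟩ := huni α
      rw [Finset.sum_eq_single x]
      · rw [if_pos]
        rw [← hqb]
        exact ⟨hxq, sub_mem hα (hT x hxT)⟩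
      · intro r hr hne
        rw [if_neg]
        intro h
        rw [← hqb] at h
        exact hne (hx r ⟨hr, h.1⟩)
      · intro h
        exact absurd hxT h
    · rw [hf0 α hα]
      simp
  have hs : ∀ r ∈ T, Summable (fun α => if α - r ∈ q * b then f α else 0) := fun r _ => by
    refine Summable.of_norm_bounded hf.norm fun α => ?_
    split_ifs
    · exact le_rfl
    · rw [norm_zero]; exact norm_nonneg _
  calc ∑' α, f α = ∑' α, ∑ r ∈ T, (if α - r ∈ q * b then f α else 0) := tsum_congr h1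
    _ = ∑ r ∈ T, ∑' α, (if α - r ∈ q * b then f α else 0) := Summable.tsum_finsetSum hs
    _ = _ := by
      refine Finset.sum_congr rfl fun r _ => ?_
      rw [← (Equiv.addLeft r).tsum_eq]
      refine tsum_congr fun β => ?_
      simp only [Equiv.coe_addLeft, add_sub_cancel_left]

theorem prin_of (hR : IsDedekindDomain R) {x δ : R} {Y : Ideal R} (hx : sp x * Y = sp δ)
    (hδ : δ ≠ 0) : ∃ y, Y = sp y := by
  have h1 : δ ∈ sp x * Y := by rw [hx]; exact Ideal.mem_span_singleton_self δ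
  obtain ⟨y, hy, hxy⟩ := Ideal.mem_span_singleton_mul.1 h1
  refine ⟨y, ?_⟩
  have h2 : sp x * Y = sp x * sp y := by
    rw [hx, ← hxy, Ideal.span_singleton_mul_span_singleton]
  have hx0 : sp x ≠ 0 := by
    intro h0
    rw [Ideal.zero_eq_bot, Ideal.span_singleton_eq_bot] at h0
    apply hδ
    rw [← hxy, h0, zero_mul]
  exact mul_left_cancel₀ hx0 h2

/-- the cofactors of the representatives are representatives -/
theorem cs_image [DecidableEq (Ideal R)] (hR : IsDedekindDomain R) {s : Finset (Ideal R)}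
    (hs : Cs s) {hh : Ideal R} (hne : hh ≠ ⊥) {g : Ideal R → Ideal R}
    (hg : ∀ b ∈ s, hh = b * g b) : Cs (s.image g) ∧ Set.InjOn g s := by
  have hg0 : ∀ b ∈ s, g b ≠ ⊥ := by
    intro b hb h0
    apply hne
    rw [hg b hb, h0, Ideal.mul_bot]
  refine ⟨⟨?_, ?_⟩, ?_⟩
  · intro J hJ
    obtain ⟨b, hb, rfl⟩ := Finset.mem_image.1 hJ
    exact hg0 b hb
  · intro I hI
    have hIh : I * hh ≠ ⊥ := by
      rw [← Ideal.zero_eq_bot]
      exact mul_ne_zero hI hne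
    obtain ⟨J, ⟨hJs, δ, hδ⟩, -⟩ := hs.uni (I * hh) hIh
    have hJ0 : J ≠ ⊥ := hs.ne J hJs
    have hδ0 : δ ≠ 0 := by
      rintro rfl
      have h1 : I * hh * J = 0 := by rw [hδ]; simp
      rcases mul_eq_zero.1 h1 with h2 | h2
      · exact hIh h2
      · exact hJ0 h2
    have hiff : ∀ b ∈ s, ((∃ α : R, I * g b = sp α) ↔ ∃ β : R, J * b = sp β) := by
      intro b hb
      have e1 : (I * g b) * (J * b) = sp δ := by
        rw [← hδ, hg b hb]
        ring
      constructor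
      · rintro ⟨α, hα⟩
        rw [hα] at e1
        exact prin_of hR e1 hδ0
      · rintro ⟨β, hβ⟩
        rw [hβ, mul_comm] at e1
        exact prin_of hR e1 hδ0
    obtain ⟨b, ⟨hb, hβ⟩, hbu⟩ := hs.uni J hJ0
    refine ⟨g b, ⟨Finset.mem_image_of_mem g hb, (hiff b hb).2 hβ⟩, ?_⟩
    rintro g' ⟨hg', hα⟩
    obtain ⟨b', hb', rfl⟩ := Finset.mem_image.1 hg'
    rw [hbu b' ⟨hb', (hiff b' hb').1 hα⟩]
  · intro b hb b' hb' h
    have e1 : b * g b = b' * g b' := by rw [← hg b hb, ← hg b' hb']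
    rw [h] at e1
    exact mul_right_cancel₀ (hg0 b' hb') e1

theorem nm_nonneg (I : Ideal R) : 0 ≤ nm I := Nat.cast_nonneg _


theorem summ_F {ω : ℂ} (h1 : H_BASIC) (h6 : H_CNT) (hR : QR R ω) (ψ : Ideal R → ℂ) (n : ℕ)
    (hψ : ∀ I, ‖ψ I‖ ≤ nm I ^ n) (h0 : ψ ⊥ = 0) (c : ℝ) (hc : 0 < c) :
    Summable (fun I => ψ I * (Real.exp (-(c * nm I)) : ℂ)) := by
  obtain ⟨-, hs, -⟩ := h6 R ω hR
  obtain ⟨-, -, hge, -⟩ := h1 R ω hR
  refine Summable.of_norm_bounded ((hs 2 (by norm_num)).mul_left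
    ((Nat.factorial (n + 2) : ℝ) / c ^ (n + 2))) fun I => ?_
  by_cases hI : I = ⊥
  · subst hI
    rw [h0, zero_mul, norm_zero]
    exact mul_nonneg (by positivity) (Real.rpow_nonneg (nm_nonneg _) _)
  · have hx : 0 < nm I := lt_of_lt_of_le one_pos (hge I hI)
    rw [norm_mul, Complex.norm_real, Real.norm_eq_abs, abs_of_pos (Real.exp_pos _)]
    have e1 : (c * nm I) ^ (n + 2) / (Nat.factorial (n + 2) : ℝ) ≤ Real.exp (c * nm I) :=
      Real.pow_div_factorial_le_exp (c * nm I) (by positivity) (n + 2)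
    have e2 : (nm I) ^ (-2 : ℝ) = (nm I ^ 2)⁻¹ := by
      rw [Real.rpow_neg hx.le]
      norm_num
    rw [e2, Real.exp_neg]
    have hf : (0 : ℝ) < (Nat.factorial (n + 2) : ℝ) := by exact_mod_cast Nat.factorial_pos _
    calc ‖ψ I‖ * (Real.exp (c * nm I))⁻¹
        ≤ nm I ^ n * ((c * nm I) ^ (n + 2) / (Nat.factorial (n + 2) : ℝ))⁻¹ :=
          mul_le_mul (hψ I) (inv_anti₀ (by positivity) e1) (by positivity) (by positivity)
      _ = _ := by
          have := hx.ne'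
          have := hc.ne'
          rw [mul_pow]
          field_simp
          ring


open Classical in
theorem one_b {ω : ℂ} (h1 : H_BASIC) (h2 : H_FP) (h3 : H_DEC) (h4 : H_GAUSS) (h5 : H_POIS)
    (hR : QR R ω) (m : ℕ) (hm : 1 ≤ m) {q : Ideal R} {ψ : Ideal R → ℂ}
    (hψ : HC (2 * m - 1) q ψ) {s : Finset (Ideal R)} {hh : Ideal R} {μ : R} {T : Finset R}
    (hS : Sys q s hh μ T) (hq : q ≠ ⊤) (t : ℝ) (ht : 0 < t) (b G : Ideal R) (hb : b ∈ s)
    (hbG : hh = b * G)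
    (hsum : Summable (fun α : R => if α ∈ b then ψ (quo b α) *
      (Real.exp (-(Real.pi * nm (quo b α) / (ω.im * Real.sqrt (nm q))) / t) : ℂ) else 0)) :
    ∑' α : R, (if α ∈ b then ψ (quo b α) *
      (Real.exp (-(Real.pi * nm (quo b α) / (ω.im * Real.sqrt (nm q))) / t) : ℂ) else 0) =
    Wc ω m q hh μ T ψ * (t : ℂ) ^ (2 * m) * ∑' γ : R, (if γ ∈ G then
      (starRingEnd ℂ) (ψ (quo G γ)) *
      (Real.exp (-(Real.pi * nm (quo G γ) / (ω.im * Real.sqrt (nm q))) * t) : ℂ) else 0) := by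
  obtain ⟨n, hn, hn2⟩ : ∃ n, 2 * m - 1 = n ∧ 2 * m = n + 1 := ⟨2 * m - 1, rfl, by omega⟩
  have hn0 : n ≠ 0 := by omega
  rw [hn] at hψ
  obtain ⟨f1, f2, f3, f4, f5⟩ := h2 R ω hR n q ψ hψ hq
  obtain ⟨-, hnm0, hge, hmul, hsp, -, -, -, -⟩ := h1 R ω hR
  have hquo := (h3 R ω hR s hS.cs).1
  obtain ⟨-, hgs⟩ := h4 R ω hR n q ψ hψ hq s hh μ T hS
  have hψ0 : ψ ⊥ = 0 := (hψ.zero ⊥).2 (Or.inl rfl)
  have hfp : ∀ α : R, ψ (sp α) = fp n ψ α * (α : ℂ) ^ n := by
    intro α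
    by_cases h : α = 0
    · subst h
      have h' : sp (0 : R) = ⊥ := Ideal.span_singleton_eq_bot.2 rfl
      rw [h', hψ0]
      simp [hn0]
    · have h' : (α : ℂ) ≠ 0 := by simpa using h
      unfold fp
      rw [div_mul_cancel₀ _ (pow_ne_zero _ h')]
  have hb0 : b ≠ ⊥ := hS.cs.ne b hb
  have hG0 : G ≠ ⊥ := by
    rintro rfl
    exact hS.ne (by rw [hbG, Ideal.mul_bot])
  have hGc : IsCoprime G q := by
    have := hS.cop
    rw [hbG] at this
    exact this.of_mul_left_right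
  have hψb : ψ b ≠ 0 := by
    intro h
    rcases (hψ.zero b).1 h with h | h
    · exact hb0 h
    · exact h (hS.cp b hb)
  have hψG : ψ G ≠ 0 := by
    intro h
    rcases (hψ.zero G).1 h with h | h
    · exact hG0 h
    · exact h hGc
  have hNb : 0 < nm b := lt_of_lt_of_le one_pos (hge b hb0)
  have hNG : 0 < nm G := lt_of_lt_of_le one_pos (hge G hG0)
  have hNq : 0 < nm q := lt_of_lt_of_le one_pos (hge q hψ.ne)
  obtain ⟨Q, hQd⟩ : ∃ Q, Q = Real.sqrt (nm q) := ⟨_, rfl⟩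
  rw [← hQd] at hsum ⊢
  have hQ : 0 < Q := by rw [hQd]; exact Real.sqrt_pos.2 hNq
  have hQ2 : Q ^ 2 = nm q := by rw [hQd]; exact Real.sq_sqrt hNq.le
  have hv := hR.im
  obtain ⟨v, hvd⟩ : ∃ v, v = ω.im := ⟨_, rfl⟩
  rw [← hvd] at hsum hv ⊢
  have hμn : Complex.normSq (μ : ℂ) = Q ^ 2 * nm b * nm G := by
    rw [← hsp, ← hS.prn, hbG, hmul, hmul, hQ2]
    ring
  have hμ0 : (μ : ℂ) ≠ 0 := by
    rw [← Complex.normSq_pos, hμn]
    positivity
  obtain ⟨τ, hτd⟩ : ∃ τ, τ = Q * nm G / t := ⟨_, rfl⟩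
  have hτ : 0 < τ := by rw [hτd]; positivity
  have hGq : q * b * G = sp μ := by rw [← hS.prn, hbG, mul_assoc]
  have hqb0 : q * b ≠ ⊥ := by
    rw [← Ideal.zero_eq_bot]
    have := hR.ded
    exact mul_ne_zero hψ.ne hb0
  have hTb : ∀ x ∈ T, x ∈ b := fun x hx => by
    have := hS.rp.mem x hx
    rw [hbG] at this
    have hle : b * G ≤ b := Ideal.mul_le_left
    exact hle this
  have hleb : q * b ≤ b := Ideal.mul_le_right
  have hleq : q * b ≤ q := Ideal.mul_le_left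
  -- the terms on the left
  have hL : ∀ α ∈ b, ψ (quo b α) *
      (Real.exp (-(Real.pi * nm (quo b α) / (v * Q)) / t) : ℂ) =
      fp n ψ α / ψ b * (α : ℂ) ^ n *
        (Real.exp (-(Real.pi * τ * Complex.normSq (α : ℂ) / (v * Complex.normSq (μ : ℂ)))) : ℂ) := by
    intro α hα
    have e1 := hquo b hb0 α hα
    have e2 : ψ (quo b α) = fp n ψ α / ψ b * (α : ℂ) ^ n := by
      have := hψ.mul (quo b α) b
      rw [e1, hfp] at this
      rw [div_mul_eq_mul_div, this, mul_div_cancel_right₀ _ hψb]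
    have e3 : nm (quo b α) * nm b = Complex.normSq (α : ℂ) := by
      rw [← hmul, e1, hsp]
    rw [e2]
    congr 3
    rw [← e3, hμn, hτd]
    field_simp
  have hRR : ∀ γ ∈ G, (starRingEnd ℂ) (ψ (quo G γ)) *
      (Real.exp (-(Real.pi * nm (quo G γ) / (v * Q)) * t) : ℂ) =
      (starRingEnd ℂ) (fp n ψ γ) * (starRingEnd ℂ) (γ : ℂ) ^ n / (starRingEnd ℂ) (ψ G) *
        (Real.exp (-(Real.pi * Complex.normSq (γ : ℂ) / (v * τ))) : ℂ) := by
    intro γ hγ
    have e1 := hquo G hG0 γ hγ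
    have e2 : ψ (quo G γ) = fp n ψ γ * (γ : ℂ) ^ n / ψ G := by
      have := hψ.mul (quo G γ) G
      rw [e1, hfp] at this
      rw [this, mul_div_cancel_right₀ _ hψG]
    have e3 : nm (quo G γ) * nm G = Complex.normSq (γ : ℂ) := by
      rw [← hmul, e1, hsp]
    rw [e2, map_div₀, map_mul, map_pow]
    congr 3
    rw [← e3, hτd]
    field_simp
  have hsplit := tsum_split q b T hTb hS.rp.uni (hS.cp b hb).symm _ hsum
    (fun α hα => if_neg hα)
  rw [hsplit]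
  -- Poisson
  have hP := fun r : R => h5 R ω hR n (q * b) G μ r τ hqb0 hG0 hGq hτ
  rw [← hvd] at hP
  have hτc : (τ : ℂ) ≠ 0 := by exact_mod_cast hτ.ne'
  have hNGc : (nm G : ℂ) ≠ 0 := by exact_mod_cast hNG.ne'
  have hin : ∀ r ∈ T, ∑' β : R, (if β ∈ q * b then (if r + β ∈ b then ψ (quo b (r + β)) *
      (Real.exp (-(Real.pi * nm (quo b (r + β)) / (v * Q)) / t) : ℂ) else 0) else 0) =
      fp n ψ r / ψ b * (μ : ℂ) ^ n * ((nm G : ℂ) / (τ : ℂ) ^ (n + 1)) *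
      ∑' γ : R, (if γ ∈ G then ((starRingEnd ℂ) (γ : ℂ)) ^ n *
      ez ω ((r : ℂ) * (γ : ℂ) / (μ : ℂ)) *
      (Real.exp (-(Real.pi * Complex.normSq (γ : ℂ) / (v * τ))) : ℂ) else 0) := by
    intro r hr
    rw [(hP r).2.2]
    have e0 : fp n ψ r / ψ b * (μ : ℂ) ^ n * ((nm G : ℂ) / (τ : ℂ) ^ (n + 1)) *
        ((τ : ℂ) ^ (n + 1) / (nm G : ℂ) * ∑' α : R, (if α ∈ q * b then
      (((r : ℂ) + (α : ℂ)) / (μ : ℂ)) ^ n *
      (Real.exp (-(Real.pi * τ * Complex.normSq ((r : ℂ) + (α : ℂ)) /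
        (v * Complex.normSq (μ : ℂ)))) : ℂ) else 0)) =
        fp n ψ r / ψ b * (μ : ℂ) ^ n * ∑' α : R, (if α ∈ q * b then
      (((r : ℂ) + (α : ℂ)) / (μ : ℂ)) ^ n *
      (Real.exp (-(Real.pi * τ * Complex.normSq ((r : ℂ) + (α : ℂ)) /
        (v * Complex.normSq (μ : ℂ)))) : ℂ) else 0) := by
      generalize ∑' α : R, (if α ∈ q * b then
        (((r : ℂ) + (α : ℂ)) / (μ : ℂ)) ^ n *
        (Real.exp (-(Real.pi * τ * Complex.normSq ((r : ℂ) + (α : ℂ)) /
        (v * Complex.normSq (μ : ℂ)))) : ℂ) else 0) = S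
      have := pow_ne_zero (n + 1) hτc
      field_simp
    rw [e0, ← tsum_mul_left]
    refine tsum_congr fun β => ?_
    by_cases hβ : β ∈ q * b
    · rw [if_pos hβ, if_pos hβ]
      have h6 : r + β ∈ b := add_mem (hTb r hr) (hleb hβ)
      have h7 : fp n ψ (r + β) = fp n ψ r :=
        f5 _ _ (by rw [add_sub_cancel_left]; exact hleq hβ)
      rw [if_pos h6, hL _ h6, h7]
      push_cast
      rw [div_pow]
      have := pow_ne_zero n hμ0
      field_simp
    · rw [if_neg hβ, if_neg hβ, mul_zero]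
  rw [Finset.sum_congr rfl hin]
  simp only [← tsum_mul_left]
  rw [← Summable.tsum_finsetSum (fun r _ => (hP r).1.mul_left _)]
  refine tsum_congr fun γ => ?_
  by_cases hγ : γ ∈ G
  · simp only [if_pos hγ]
    rw [hRR γ hγ]
    have hg := hgs b G hbG.symm T ⟨hTb, hS.rp.uni⟩ γ hγ
    have htc : (t : ℂ) ≠ 0 := by exact_mod_cast ht.ne'
    have hNqc : (nm q : ℂ) ≠ 0 := by exact_mod_cast hNq.ne'
    have hτp : (τ : ℂ) ^ (n + 1) = (nm q : ℂ) ^ m * (nm G : ℂ) ^ (n + 1) / (t : ℂ) ^ (n + 1) := by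
      have hQm : (Q : ℂ) ^ (n + 1) = (nm q : ℂ) ^ m := by
        rw [← hn2, pow_mul, ← hQ2]
        push_cast
        rfl
      rw [hτd, ← hQm]
      push_cast
      rw [div_pow, mul_pow]
    have hcc : ψ G * (starRingEnd ℂ) (ψ G) = (nm G : ℂ) ^ n := by
      rw [Complex.mul_conj, Complex.normSq_eq_norm_sq, f1 G hG0 hGc]
      push_cast
      rfl
    have hcG : (starRingEnd ℂ) (ψ G) ≠ 0 := by
      rw [Ne, map_eq_zero]
      exact hψG
    calc ∑ r ∈ T, fp n ψ r / ψ b * (μ : ℂ) ^ n * ((nm G : ℂ) / (τ : ℂ) ^ (n + 1)) *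
          ((starRingEnd ℂ) (γ : ℂ) ^ n * ez ω ((r : ℂ) * (γ : ℂ) / (μ : ℂ)) *
            (Real.exp (-(Real.pi * Complex.normSq (γ : ℂ) / (v * τ))) : ℂ))
        = ((μ : ℂ) ^ n * ((nm G : ℂ) / (τ : ℂ) ^ (n + 1)) / ψ b *
            ((starRingEnd ℂ) (γ : ℂ) ^ n *
              (Real.exp (-(Real.pi * Complex.normSq (γ : ℂ) / (v * τ))) : ℂ))) *
          ∑ r ∈ T, fp n ψ r * ez ω ((r : ℂ) * (γ : ℂ) / (μ : ℂ)) := by
          rw [Finset.mul_sum]
          refine Finset.sum_congr rfl fun r _ => ?_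
          ring
      _ = _ := by
          rw [hg, hτp]
          unfold Wc
          rw [hn, hbG, hψ.mul b G, hn2]
          generalize (Real.exp (-(Real.pi * Complex.normSq (γ : ℂ) / (v * τ))) : ℂ) = E
          generalize (starRingEnd ℂ) (fp n ψ γ) = P
          generalize (starRingEnd ℂ) (γ : ℂ) ^ n = Z
          generalize (μ : ℂ) ^ n = M
          generalize gT ω n ψ μ T = g
          rw [pow_succ (nm G : ℂ) n, ← hcc]
          generalize (starRingEnd ℂ) (ψ G) = c at *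
          have h8 := pow_ne_zero m hNqc
          have h9 := pow_ne_zero (n + 1) htc
          generalize (nm q : ℂ) ^ m = A at *
          generalize (t : ℂ) ^ (n + 1) = B at *
          field_simp
  · simp only [if_neg hγ, mul_zero, Finset.sum_const_zero]

theorem q_ne_top {m : ℕ} (hm : 1 ≤ m) {q : Ideal R} {ψ : Ideal R → ℂ}
    (hψ : HC (2 * m - 1) q ψ) : q ≠ ⊤ := by
  rintro rfl
  have e1 := hψ.princ 1 one_ne_zero Submodule.mem_top
  have e2 := hψ.princ (-1) (neg_ne_zero.2 one_ne_zero) Submodule.mem_top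
  have e3 : sp (-1 : R) = sp (1 : R) := Ideal.span_singleton_neg _
  rw [e3, e1] at e2
  push_cast at e2
  have ho : Odd (2 * m - 1) := ⟨m - 1, by omega⟩
  rw [one_pow, ho.neg_one_pow] at e2
  norm_num at e2

theorem norm_psi_le {ω : ℂ} (h1 : H_BASIC) (h2 : H_FP) (hR : QR R ω) {n : ℕ} {q : Ideal R}
    {ψ : Ideal R → ℂ} (hψ : HC n q ψ) (hq : q ≠ ⊤) (I : Ideal R) : ‖ψ I‖ ≤ nm I ^ n := by
  obtain ⟨f1, -⟩ := h2 R ω hR n q ψ hψ hq
  obtain ⟨-, -, hge, -⟩ := h1 R ω hR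
  by_cases h0 : ψ I = 0
  · rw [h0, norm_zero]
    exact pow_nonneg (nm_nonneg I) n
  · have h3 : ¬ (I = ⊥ ∨ ¬ IsCoprime I q) := fun h => h0 ((hψ.zero I).2 h)
    push Not at h3
    have h4 := f1 I h3.1 h3.2
    have h5 : 1 ≤ nm I ^ n := one_le_pow₀ (hge I h3.1)
    by_contra h6
    push Not at h6
    nlinarith [norm_nonneg (ψ I)]

theorem h_theta (h1 : H_BASIC) (h2 : H_FP) (h3 : H_DEC) (h4 : H_GAUSS) (h5 : H_POIS)
    (h6 : H_CNT) : H_THETA := by
  intro R ω hR m hm q ψ hψ s hh μ T hS t ht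
  classical
  have hq : q ≠ ⊤ := q_ne_top hm hψ
  obtain ⟨g, hg⟩ : ∃ g : Ideal R → Ideal R, ∀ b ∈ s, hh = b * g b := by
    choose! g hg using hS.dvd
    exact ⟨g, hg⟩
  obtain ⟨hcs, hinj⟩ := cs_image hR.ded hS.cs hS.ne hg
  have hψ0 : ψ ⊥ = 0 := (hψ.zero ⊥).2 (Or.inl rfl)
  have hle := norm_psi_le h1 h2 hR hψ hq
  have hge := (h1 R ω hR).2.2.1
  have hv := hR.im
  have hNq : 0 < nm q := lt_of_lt_of_le one_pos (hge q hψ.ne)
  have hQ : 0 < Real.sqrt (nm q) := Real.sqrt_pos.2 hNq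
  have hs1 : Summable (fun I : Ideal R => ψ I *
      (Real.exp (-(Real.pi * nm I / (ω.im * Real.sqrt (nm q))) / t) : ℂ)) := by
    have hc : 0 < Real.pi / (ω.im * Real.sqrt (nm q)) / t := by positivity
    refine (summ_F h1 h6 hR ψ _ hle hψ0 _ hc).congr fun I => ?_
    congr 3
    ring
  have hs2 : Summable (fun I : Ideal R => (starRingEnd ℂ) (ψ I) *
      (Real.exp (-(Real.pi * nm I / (ω.im * Real.sqrt (nm q))) * t) : ℂ)) := by
    have hc : 0 < Real.pi / (ω.im * Real.sqrt (nm q)) * t := by positivity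
    refine (summ_F h1 h6 hR (fun I => (starRingEnd ℂ) (ψ I)) (2 * m - 1)
      (fun I => ?_) ?_ _ hc).congr fun I => ?_
    · rw [RCLike.norm_conj]
      exact hle I
    · rw [hψ0, map_zero]
    · congr 3
      ring
  obtain ⟨d1, d2⟩ := (h3 R ω hR s hS.cs).2 (fun I : Ideal R => ψ I *
      (Real.exp (-(Real.pi * nm I / (ω.im * Real.sqrt (nm q))) / t) : ℂ))
    (by simp only [hψ0, zero_mul])
  obtain ⟨-, d4⟩ := (h3 R ω hR _ hcs).2 (fun I : Ideal R => (starRingEnd ℂ) (ψ I) *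
      (Real.exp (-(Real.pi * nm I / (ω.im * Real.sqrt (nm q))) * t) : ℂ))
    (by simp only [hψ0, map_zero, zero_mul])
  rw [d2 hs1, d4 hs2, Finset.sum_image hinj, Finset.mul_sum]
  refine Finset.sum_congr rfl fun b hb => ?_
  have h := one_b h1 h2 h3 h4 h5 hR m hm hψ hS hq t ht b (g b) hb (hg b hb) (d1.1 hs1 b hb)
  rw [h]
  ring

end Pool.Agent.W391.HK

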